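import Pool.Agent.TH879.KZ.Circ2

/-!
# Katznelson's question for three colours and for circular chromatic number below four

For every set `S` of integers there is a colouring of `ℤ` with three colours without two integers
of the same colour whose difference lies in `S` iff one real number `θ` satisfies
`‖θ s‖ ≥ 1/3` for all `s ∈ S`.  More generally, for every `ρ > 1/4` there is a map
`f : ℤ → ℝ/ℤ` with `‖f(x+s) - f(x)‖ ≥ ρ` for all `x` and `s ∈ S` (circular chromatic number at most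
`1/ρ`) iff one real number `θ` satisfies `‖θ s‖ ≥ ρ` for all `s ∈ S`.
-/

set_option autoImplicit false

namespace Pool.Agent.Results.MP_cbd4b2_an.ThreeColours

/-- **Katznelson's question for three colours and circular chromatic number below four.** -/
theorem result :
    -- (1) the integers: 3-colourings avoiding the differences `S` exist iff one rotation of the
    -- circle keeps `S` at distance at least `1/3` from `0`
    (∀ S : Set ℤ, (∃ f : ℤ → Fin 3, ∀ x, ∀ s ∈ S, f x ≠ f (x + s)) ↔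
      ∃ θ : ℝ, ∀ s ∈ S, 1 / 3 ≤ |θ * s - round (θ * s)|) ∧
    -- (2) circular colourings: maps to the circle which move by at least `ρ > 1/4` along `S`
    (∀ ρ : ℝ, 1 / 4 < ρ → ∀ S : Set ℤ,
      (∃ f : ℤ → AddCircle (1 : ℝ), ∀ x, ∀ s ∈ S, ρ ≤ ‖f (x + s) - f x‖) ↔
        ∃ θ : ℝ, ∀ s ∈ S, ρ ≤ |θ * s - round (θ * s)|) ∧
    -- (3) both statements for every abelian group, with one character
    (∀ (A : Type) [AddCommGroup A] (S : Set A),
      ((∃ f : A → Fin 3, ∀ x, ∀ s ∈ S, f x ≠ f (x + s)) ↔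
        ∃ φ : A →+ AddCircle (1 : ℝ), ∀ s ∈ S, 1 / 3 ≤ ‖φ s‖) ∧
      ∀ ρ : ℝ, 1 / 4 < ρ →
        ((∃ f : A → AddCircle (1 : ℝ), ∀ x, ∀ s ∈ S, ρ ≤ ‖f (x + s) - f x‖) ↔
          ∃ φ : A →+ AddCircle (1 : ℝ), ∀ s ∈ S, ρ ≤ ‖φ s‖)) ∧
    -- (4) systems covered by three translates of `U`: the return times of `U` contain
    -- `{n : ‖θ n‖ < 1/3}` for one `θ`
    (∀ (X : Type) [Nonempty X] (T : Equiv.Perm X) (U : Set X) (a b c : ℤ),
      (∀ x, (T ^ a) x ∈ U ∨ (T ^ b) x ∈ U ∨ (T ^ c) x ∈ U) →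
        ∃ θ : ℝ, ∀ n : ℤ, |θ * n - round (θ * n)| < 1 / 3 → ∃ x ∈ U, (T ^ n) x ∈ U) :=
  ⟨Pool.Agent.TH879.KZ.int_iff, fun _ h S => Pool.Agent.TH879.KZ.int_circ_iff h S,
    fun _ _ S => ⟨Pool.Agent.TH879.KZ.three_iff S,
      fun _ h => Pool.Agent.TH879.KZ.circ_iff h S⟩,
    fun _ _ T U a b c h => Pool.Agent.TH879.KZ.return_times T U a b c h⟩

end Pool.Agent.Results.MP_cbd4b2_an.ThreeColours
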